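import Pool.Agent.Y660.ST.Fin

/-!
# Sturmian ground states can be stable under small finite-range perturbations

MP_084e97_mp: for every Diophantine number `φ` there is a summable interaction whose unique ground
state is the Sturmian measure of `φ` and for which this ground state is zero-temperature stable.
-/

set_option autoImplicit false

namespace Pool.Agent.Results.MP_084e97_mp.SturmianStable

open MeasureTheory Pool.Agent.Y660.ST

/-- Diophantine numbers: `q ^ d * |q φ - p| ≥ c` for some `c > 0`, some `d` and all integers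
`q > 0` and `p` -/
def Diophantine (φ : ℝ) : Prop := ∃ c : ℝ, 0 < c ∧ ∃ d : ℕ, ∀ q : ℕ, 0 < q → ∀ p : ℤ,
  c ≤ (q : ℝ) ^ d * |q * φ - p|

lemma Diophantine.irrational {φ : ℝ} (h : Diophantine φ) : Irrational φ := by
  obtain ⟨c, hc, d, hd⟩ := h
  rintro ⟨r, rfl⟩
  have h1 := hd r.den r.den_pos r.num
  have h2 : ((r.den : ℕ) : ℝ) * (r : ℝ) - (r.num : ℝ) = 0 := by
    have h3 : ((r.den : ℕ) : ℚ) * r = r.num := by rw [mul_comm]; exact Rat.mul_den_eq_num r
    have h4 : ((r.den : ℕ) : ℝ) * (r : ℝ) = r.num := by exact_mod_cast h3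
    rw [h4, sub_self]
  rw [h2, abs_zero, mul_zero] at h1
  linarith

/-- `√2 - 1` is a Diophantine number in `(0, 1)`. For every Diophantine number `φ` in `(0, 1)`
(it is irrational) there is exactly one translation-invariant probability measure `ρ` carried by
the closure of the orbit of the Sturmian sequence of `φ`, and there is a summable interaction `H`
whose unique ground state is `ρ` such that for every finite-range interaction `H'` there is
`ε₀ > 0` such that for all `0 < ε < ε₀`, `ρ` is a ground state of `H + ε H'`, and in fact the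
unique one. -/
theorem result : (0 < √2 - 1 ∧ √2 - 1 < 1 ∧ Diophantine (√2 - 1)) ∧
    ∀ φ : ℝ, 0 < φ → φ < 1 → Diophantine φ → Irrational φ ∧
      ∃ ρ : Measure Conf, (∀ μ, IsSturm φ μ ↔ μ = ρ) ∧
        ∃ H : Interaction, IsSummable H ∧ (∀ μ, IsGS H μ ↔ μ = ρ) ∧
          ∀ H' : Interaction, FinRange H' → ∃ ε₀ : ℝ, 0 < ε₀ ∧
            ∀ ε, 0 < ε → ε < ε₀ → ∀ μ, IsGS (pert H H' ε) μ ↔ μ = ρ := by
  refine ⟨⟨?_, ?_, dioph_sqrt⟩, fun φ h0 h1 hφ => ⟨hφ.irrational, ?_⟩⟩
  · have : 1 < √2 := by
      rw [Real.lt_sqrt (by norm_num)]; norm_num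
    linarith
  · have : √2 < 2 := by
      rw [Real.sqrt_lt' (by norm_num)]; norm_num
    linarith
  · obtain ⟨R, hR⟩ := Dioph.adm (φ := φ) hφ
    obtain ⟨h2, h3, h4, h5⟩ := main h0 h1 hφ.irrational hR
    exact ⟨sturm φ, h2, Win φ R, h3, h4, h5⟩

end Pool.Agent.Results.MP_084e97_mp.SturmianStable
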